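import Pool.Agent.H59.PG.Stmts
import Pool.Agent.TM.Lib2

set_option autoImplicit false

namespace Pool.PG

open TMLib

namespace PEV

theorem sz_nx (g : Game) (u : ℕ) : sz (nx g u) ≤ sz g := by
  unfold nx suc vx
  rw [List.getD_eq_getElem?_getD]
  rcases h : g[u]? with _ | e
  · simp only [Option.getD_none, List.headD_nil, sz_nat]
    have := sz_pos g
    omega
  · have he : e ∈ g := List.mem_of_getElem? h
    have h1 := sz_le_of_mem he
    simp only [Option.getD_some]
    have h2 : sz e = 1 + sz e.1 + sz e.2 := sz_pair e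
    rcases h3 : e.2 with _ | ⟨a, t⟩
    · simp only [List.headD_nil, sz_nat]
      have := sz_pos g
      omega
    · rw [h3, sz_cons] at h2
      simp only [List.headD_cons]
      omega

theorem sz_iter (g : Game) (v i : ℕ) : sz ((nx g)^[i] v) ≤ sz v + sz g := by
  cases i with
  | zero => simp
  | succ i =>
    rw [Function.iterate_succ_apply']
    have := sz_nx g ((nx g)^[i] v)
    omega

theorem iter_pair (g : Game) (v i : ℕ) :
    (fun s : Game × ℕ => (s.1, nx s.1 s.2))^[i] (g, v) = (g, (nx g)^[i] v) := by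
  induction i with
  | zero => rfl
  | succ i ih => rw [Function.iterate_succ_apply', ih, Function.iterate_succ_apply']

end PEV

theorem pev_row (h1 : PV1Stmt) : PEVStmt := by
  obtain ⟨-, -, hpri, hsuc, -, hevb, hmnl⟩ := h1
  have hnx : PTime (fun p : Game × ℕ => nx p.1 p.2) :=
    (PTime.getD (PTime.head? hsuc) (PTime.const 0)).congr fun p => by
      unfold nx
      cases suc p.1 p.2 <;> rfl
  have hstep : PTime (fun s : Game × ℕ => (s.1, nx s.1 s.2)) := PTime.pair (PTime.fst PTime.id) hnx
  -- iterates: `q = ((v, g), i)`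
  have hit : PTime (fun q : (ℕ × Game) × ℕ =>
      (fun s : Game × ℕ => (s.1, nx s.1 s.2))^[q.1.2.length + q.2] (q.1.2, q.1.1)) := by
    refine PTime.iter (s := fun q : (ℕ × Game) × ℕ => (q.1.2, q.1.1))
      (n := fun q => q.1.2.length + q.2) hstep
      (PTime.pair (PTime.snd (PTime.fst PTime.id)) (PTime.fst (PTime.fst PTime.id)))
      (PTime.add (PTime.length (PTime.snd (PTime.fst PTime.id))) (PTime.snd PTime.id))
      (h := fun q => 2 * sz q) ((PB.const 2).mul PB.sz_self) ?_
    rintro ⟨⟨v, g⟩, j⟩ i _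
    rw [PEV.iter_pair]
    have := PEV.sz_iter g v i
    simp only [sz_pair]
    omega
  have hval : PTime (fun q : (ℕ × Game) × ℕ => pri q.1.2 ((nx q.1.2)^[q.1.2.length + q.2] q.1.1)) :=
    (PTime.comp2 (g := fun (g : Game) (u : ℕ) => pri g u) hpri
      (PTime.snd (PTime.fst PTime.id)) (PTime.snd hit)).congr fun q => by
        obtain ⟨⟨v, g⟩, j⟩ := q
        rw [PEV.iter_pair]
  have hlist : PTime (fun p : ℕ × Game => (List.range p.2.length).map
      fun i => pri p.2 ((nx p.2)^[p.2.length + i] p.1)) :=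
    PTime.map (l := fun p : ℕ × Game => List.range p.2.length)
      (g := fun p i => pri p.2 ((nx p.2)^[p.2.length + i] p.1))
      (PTime.range (PTime.length (PTime.snd PTime.id))) hval
  exact (hevb.comp (hmnl.comp hlist)).congr fun _ => rfl

end Pool.PG
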