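import Pool.Agent.H59.PG.Stmts
import Pool.Agent.TM.Lib2

set_option autoImplicit false

namespace Pool.PG

open TMLib

theorem pgl_row (h1 : PV1Stmt) : PGLStmt := by
  obtain ⟨-, -, -, -, hshE, -, -⟩ := h1
  have hglue : PTime (fun p : (ℕ × ℕ) × List Game => glue p.1.1 p.1.2 p.2) := by
    -- `q = (p, k)`, `z = ((p, k), e)`
    have hin : PTime (fun z : (((ℕ × ℕ) × List Game) × ℕ) × Vx =>
        shE (z.1.1.1.1 + z.1.2 * z.1.1.1.2) z.2) :=
      PTime.comp2 (g := fun (o : ℕ) (e : Vx) => shE o e) hshE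
        (PTime.add (PTime.fst (PTime.fst (PTime.fst (PTime.fst PTime.id))))
          (PTime.mul (PTime.snd (PTime.fst PTime.id))
            (PTime.snd (PTime.fst (PTime.fst (PTime.fst PTime.id))))))
        (PTime.snd PTime.id)
    have hget : PTime (fun q : ((ℕ × ℕ) × List Game) × ℕ => q.1.2.getD q.2 []) :=
      PTime.listGetD (PTime.snd (PTime.fst PTime.id)) (PTime.snd PTime.id)
        (PTime.const ([] : Game))
    have hm : PTime (fun q : ((ℕ × ℕ) × List Game) × ℕ =>
        (q.1.2.getD q.2 []).map (shE (q.1.1.1 + q.2 * q.1.1.2))) :=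
      PTime.map (l := fun q : ((ℕ × ℕ) × List Game) × ℕ => q.1.2.getD q.2 [])
        (g := fun q e => shE (q.1.1.1 + q.2 * q.1.1.2) e) hget hin
    have := PTime.flatMap (l := fun p : (ℕ × ℕ) × List Game => List.range p.2.length)
      (g := fun p k => (p.2.getD k []).map (shE (p.1.1 + k * p.1.2)))
      (PTime.range (PTime.length (PTime.snd PTime.id))) hm
    exact this.congr fun _ => rfl
  refine ⟨hglue, ?_⟩
  have hk : PTime (fun q : ((ℕ × ℕ) × List Game) × ℕ => 1 + q.2 * q.1.1.1 + q.1.1.2) :=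
    PTime.add (PTime.add (PTime.const 1)
      (PTime.mul (PTime.snd PTime.id) (PTime.fst (PTime.fst (PTime.fst PTime.id)))))
      (PTime.snd (PTime.fst (PTime.fst PTime.id)))
  have hl : PTime (fun p : (ℕ × ℕ) × List Game =>
      0 :: (List.range p.2.length).map fun k => 1 + k * p.1.1 + p.1.2) :=
    PTime.cons (PTime.const 0)
      (PTime.map (l := fun p : (ℕ × ℕ) × List Game => List.range p.2.length)
        (g := fun p k => 1 + k * p.1.1 + p.1.2)
        (PTime.range (PTime.length (PTime.snd PTime.id))) hk)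
  have hg : PTime (fun p : (ℕ × ℕ) × List Game => glue 1 p.1.1 p.2) :=
    (hglue.comp (f := fun p : (ℕ × ℕ) × List Game => ((1, p.1.1), p.2))
      (PTime.pair (PTime.pair (PTime.const 1) (PTime.fst (PTime.fst PTime.id)))
        (PTime.snd PTime.id))).congr fun _ => rfl
  exact (PTime.cons (PTime.pair (PTime.const ((true, 1) : Bool × ℕ)) hl) hg).congr fun _ => rfl

end Pool.PG
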