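import Pool.Agent.H59.PG.Stmts
import Pool.Agent.TM.Lib2

set_option autoImplicit false

namespace Pool.PG

open TMLib

theorem prs_row (h1 : PV1Stmt) : PRSStmt := by
  obtain ⟨-, hown, hpri, hsuc, -, -, -⟩ := h1
  -- inner data: `q = ((r, g), u)`
  have hg : PTime (fun q : (ℕ × Game) × ℕ => q.1.2) := PTime.snd (PTime.fst PTime.id)
  have hu : PTime (fun q : (ℕ × Game) × ℕ => q.2) := PTime.snd PTime.id
  have ho : PTime (fun q : (ℕ × Game) × ℕ => own q.1.2 q.2) :=
    PTime.comp2 (g := fun (g : Game) (u : ℕ) => own g u) hown hg hu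
  have hp : PTime (fun q : (ℕ × Game) × ℕ => pri q.1.2 q.2) :=
    PTime.comp2 (g := fun (g : Game) (u : ℕ) => pri g u) hpri hg hu
  have hs : PTime (fun q : (ℕ × Game) × ℕ => suc q.1.2 q.2) :=
    PTime.comp2 (g := fun (g : Game) (u : ℕ) => suc g u) hsuc hg hu
  have hl : PTime (fun q : (ℕ × Game) × ℕ => 2 * q.1.2.length) :=
    PTime.mul (PTime.const 2) (PTime.length hg)
  have htn : ∀ {f : (ℕ × Game) × ℕ → Bool}, PTime f → PTime (fun q => (f q).toNat) := by
    intro f hf
    exact (PTime.cond hf (PTime.const 1) (PTime.const 0)).congr fun q => by cases f q <;> rfl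
  have hp2 : PTime (fun q : (ℕ × Game) × ℕ => pri q.1.2 q.2 + 2) :=
    PTime.add hp (PTime.const 2)
  have ha : PTime (fun q : (ℕ × Game) × ℕ => ((((!own q.1.2 q.2, pri q.1.2 q.2 + 2),
      [2 * q.1.2.length + (!own q.1.2 q.2).toNat, 2 * q.2 + 1]) : Vx))) :=
    PTime.pair (PTime.pair (PTime.not ho) hp2)
      (PTime.cons (PTime.add hl (htn (PTime.not ho)))
        (PTime.cons (PTime.add (PTime.mul (PTime.const 2) hu) (PTime.const 1))
          (PTime.const ([] : List ℕ))))
  have hb : PTime (fun q : (ℕ × Game) × ℕ => (((own q.1.2 q.2, pri q.1.2 q.2 + 2),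
      (2 * q.1.2.length + (own q.1.2 q.2).toNat) :: (suc q.1.2 q.2).map fun w => 2 * w) : Vx)) :=
    PTime.pair (PTime.pair ho hp2)
      (PTime.cons (PTime.add hl (htn ho))
        (PTime.map (g := fun _ w => 2 * w) hs (PTime.mul (PTime.const 2) (PTime.snd PTime.id))))
  have hfm : PTime (fun p : ℕ × Game => (List.range p.2.length).flatMap fun u =>
      [((((!own p.2 u, pri p.2 u + 2),
        [2 * p.2.length + (!own p.2 u).toNat, 2 * u + 1]) : Vx)),
       (((own p.2 u, pri p.2 u + 2),
        (2 * p.2.length + (own p.2 u).toNat) :: (suc p.2 u).map fun w => 2 * w) : Vx)]) :=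
    PTime.flatMap (l := fun p : ℕ × Game => List.range p.2.length)
      (g := fun p u => [((((!own p.2 u, pri p.2 u + 2),
        [2 * p.2.length + (!own p.2 u).toNat, 2 * u + 1]) : Vx)),
       (((own p.2 u, pri p.2 u + 2),
        (2 * p.2.length + (own p.2 u).toNat) :: (suc p.2 u).map fun w => 2 * w) : Vx)])
      (PTime.range (PTime.length (PTime.snd PTime.id)))
      (PTime.cons ha (PTime.cons hb (PTime.const ([] : List Vx))))
  have hr : PTime (fun p : ℕ × Game => [2 * p.1]) :=
    PTime.cons (PTime.mul (PTime.const 2) (PTime.fst PTime.id)) (PTime.const ([] : List ℕ))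
  have hc : PTime (fun p : ℕ × Game =>
      [(((false, 0), [2 * p.1]) : Vx), (((true, 1), [2 * p.1]) : Vx),
        (((true, 0), [2 * p.1]) : Vx)]) :=
    PTime.cons (PTime.pair (PTime.const ((false, 0) : Bool × ℕ)) hr)
      (PTime.cons (PTime.pair (PTime.const ((true, 1) : Bool × ℕ)) hr)
        (PTime.cons (PTime.pair (PTime.const ((true, 0) : Bool × ℕ)) hr)
          (PTime.const ([] : List Vx))))
  exact (PTime.append hfm hc).congr fun _ => rfl

end Pool.PG
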