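import Pool.Agent.H59.PG.Stmts
import Pool.Agent.TM.Lib2

set_option autoImplicit false

namespace Pool.PG

open TMLib

namespace PV1

theorem pvx : PTime (fun p : Game × ℕ => vx p.1 p.2) :=
  (PTime.listGetD (PTime.fst PTime.id) (PTime.snd PTime.id)
    (PTime.const (((false, 0), []) : Vx))).congr fun _ => rfl

theorem pshE : PTime (fun p : ℕ × Vx => shE p.1 p.2) :=
  (PTime.pair (PTime.fst (PTime.snd PTime.id))
    (PTime.map (l := fun p : ℕ × Vx => p.2.2) (g := fun p w => w + p.1)
      (PTime.snd (PTime.snd PTime.id))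
      (PTime.add (PTime.snd PTime.id) (PTime.fst (PTime.fst PTime.id))))).congr fun _ => rfl

theorem pevb : PTime evb := by
  have h := PTime.natRec (α := ℕ) (σ := Bool) (f := fun _ => true) (g := fun _ _ b => !b)
    (n := fun n => n) (PTime.const true) (PTime.not (PTime.snd (PTime.snd PTime.id))) PTime.id
    (h := fun _ => 3) (PB.const 3) (fun a i _ => sz_bool_le _)
  exact h.congr fun _ => rfl

theorem pheadD : PTime (fun l : List ℕ => l.headD 0) :=
  (PTime.getD (PTime.head? PTime.id) (PTime.const 0)).congr fun l => by cases l <;> rfl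

theorem foldl_min_le (l : List ℕ) (a : ℕ) : l.foldl min a ≤ a := by
  induction l generalizing a with
  | nil => exact le_rfl
  | cons b l ih => exact (ih _).trans (min_le_left _ _)

theorem pmnl : PTime mnl := by
  have h := PTime.foldl (α := List ℕ) (σ := ℕ) (β := ℕ) (f := fun _ s b => min s b)
    (init := fun l => l.headD 0) (l := fun l => l)
    (PTime.min (PTime.fst (PTime.snd PTime.id)) (PTime.snd (PTime.snd PTime.id)))
    pheadD PTime.id (h := fun l => sz (l.headD 0)) pheadD.pb (fun a l' _ => by
      have h2 : l'.foldl (fun s b => min s b) (a.headD 0) ≤ a.headD 0 := foldl_min_le l' _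
      simp only [sz_nat]
      omega)
  exact h.congr fun _ => rfl

end PV1

theorem pv1_row : PV1Stmt := by
  refine ⟨PV1.pvx, ?_, ?_, ?_, PV1.pshE, PV1.pevb, PV1.pmnl⟩
  · exact (PTime.fst (PTime.fst PV1.pvx)).congr fun _ => rfl
  · exact (PTime.snd (PTime.fst PV1.pvx)).congr fun _ => rfl
  · exact (PTime.snd PV1.pvx).congr fun _ => rfl

end Pool.PG
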